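import Mathlib

set_option autoImplicit false

namespace Pool.Agent.TriMin

/-- Arithmetic for `n ≥ 6t - 1`. -/
theorem arith1 (t : ℕ) (ht : 2 ≤ t) (y : ℕ) :
    (2 * t - 1) * max (t * t) ((3 * t - 1) * 1) + 2 * t * max (t * t) (y * 0) < 4 * t ^ 3 := by
  obtain ⟨s, rfl⟩ : ∃ s, t = s + 2 := ⟨t - 2, by omega⟩
  have e1 : 2 * (s + 2) - 1 = 2 * s + 3 := by omega
  have e2 : 3 * (s + 2) - 1 = 3 * s + 5 := by omega
  rw [e1, e2, mul_zero, mul_one, max_eq_left (Nat.zero_le _)]
  rcases Nat.eq_zero_or_pos s with hs | hs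
  · subst hs; norm_num
  · rw [max_eq_left (by nlinarith)]
    nlinarith

/-- A bound for one side of the construction. -/
theorem side (t x : ℕ) (h1 : 2 * t ≤ x) (h2 : x < 3 * t)
    (h3 : 2 * x * t + t * t < x * x) (ht : 0 < t) :
    (x - t) * max (t * t) (x * (3 * t - x)) + 1 ≤ 2 * t ^ 3 ∨ x = 2 * t := by
  obtain ⟨a, rfl⟩ : ∃ a, x = 2 * t + a := ⟨x - 2 * t, by omega⟩
  rcases Nat.eq_zero_or_pos a with ha | ha
  · right; omega
  left
  obtain ⟨b, hb⟩ : ∃ b, t = a + 1 + b := ⟨t - a - 1, by omega⟩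
  have e1 : 2 * t + a - t = t + a := by omega
  have e2 : 3 * t - (2 * t + a) = b + 1 := by omega
  rw [e1, e2]
  rcases max_choice (t * t) ((2 * t + a) * (b + 1)) with h | h <;> rw [h]
  · subst hb
    nlinarith [Nat.zero_le (a * b), Nat.zero_le (a * a), Nat.zero_le (b * b),
      Nat.zero_le ((a + 1 + b) * (a + 1 + b) * b)]
  · have key : (2 * (t : ℤ) ^ 3) - (t + a) * ((2 * t + a) * (t - a)) =
        a * ((2 * t + a) * (2 * t + a) - 2 * (2 * t + a) * t - t * t) := by ring
    have h3' : (2 * (2 * (t : ℤ) + a) * t + t * t < (2 * t + a) * (2 * t + a)) := by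
      exact_mod_cast h3
    have hpos : (0 : ℤ) < a * ((2 * t + a) * (2 * t + a) - 2 * (2 * t + a) * t - t * t) := by
      apply mul_pos
      · exact_mod_cast ha
      · linarith
    have hb' : ((b : ℤ) + 1) = t - a := by
      rw [hb]; push_cast; ring
    have : (((t + a) * ((2 * t + a) * (b + 1)) : ℕ) : ℤ) < ((2 * t ^ 3 : ℕ) : ℤ) := by
      push_cast
      rw [hb']
      linarith
    have := Int.ofNat_lt.1 this
    omega

/-- Arithmetic for `5t ≤ n ≤ 6t - 2`, with `n = x + y` split as evenly as possible. -/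
theorem arith2 (t x y : ℕ) (ht : 2 ≤ t) (h1 : 5 * t ≤ x + y) (h2 : x + y ≤ 6 * t - 2)
    (hxy : x ≤ y) (hyx : y ≤ x + 1) :
    (x - t) * max (t * t) (x * (3 * t - x)) + (y - t) * max (t * t) (y * (3 * t - y)) <
      4 * t ^ 3 := by
  rcases lt_or_ge t 6 with h6 | h6
  · have hx : x ≤ 14 := by omega
    interval_cases t <;> interval_cases x <;>
      first
        | omega
        | (interval_cases y <;> omega)
  · have hx : 5 * t ≤ 2 * x + 1 := by omega
    have key : ∀ z : ℕ, 5 * t ≤ 2 * z + 1 → z < 3 * t →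
        (z - t) * max (t * t) (z * (3 * t - z)) + 1 ≤ 2 * t ^ 3 := by
      intro z hz hz'
      have h3 : 2 * z * t + t * t < z * z := by
        obtain ⟨e, he⟩ : ∃ e, 2 * z + 1 = 5 * t + e := ⟨2 * z + 1 - 5 * t, by omega⟩
        zify at he h6 ⊢
        have hz2 : (z : ℤ) = (5 * t + e - 1) / 2 := by omega
        have e0 : (0 : ℤ) ≤ e := by positivity
        have h4 : 4 * ((z : ℤ) * z - (2 * z * t + t * t)) =
            (t : ℤ) ^ 2 - 6 * t + 1 + e * (6 * t - 2) + e ^ 2 := by
          have : (2 * (z : ℤ)) = 5 * t + e - 1 := by linarith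
          have h5 : 4 * ((z : ℤ) * z - (2 * z * t + t * t)) =
              (2 * z) * (2 * z) - 4 * t * (2 * z) - 4 * t * t := by ring
          rw [h5, this]; ring
        nlinarith
      rcases side t z (by omega) hz' h3 (by omega) with h | h
      · exact h
      · omega
    have a1 := key x hx (by omega)
    have a2 := key y (by omega) (by omega)
    omega

end Pool.Agent.TriMin
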