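import Mathlib

set_option autoImplicit false

namespace Pool.Agent.TriMin

open Finset Classical

/-- Cyclic design: `a` vertices with exactly `r` neighbours each among `b` vertices, every one of
which has at least `s` neighbours. -/
theorem bip (a b r s : ℕ) (hb : 0 < b) (hr : r ≤ b) (h : b * s ≤ a * r) :
    ∃ R : ℕ → ℕ → Prop,
      (∀ i, ((range b).filter (fun k => R i k)).card = r) ∧
      (∀ k, k < b → s ≤ ((range a).filter (fun i => R i k)).card) := by
  obtain ⟨R, hR⟩ : ∃ R : ℕ → ℕ → Prop, ∀ i k, R i k ↔ ∃ j, j < r ∧ (i * r + j) % b = k :=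
    ⟨_, fun _ _ => Iff.rfl⟩
  refine ⟨R, ?_, ?_⟩
  · intro i
    have : (range b).filter (fun k => R i k) =
        (range r).image (fun j => (i * r + j) % b) := by
      ext k
      simp only [mem_filter, mem_range, mem_image, hR]
      constructor
      · rintro ⟨_, j, hj, hjk⟩
        exact ⟨j, hj, hjk⟩
      · rintro ⟨j, hj, hjk⟩
        exact ⟨hjk ▸ Nat.mod_lt _ hb, j, hj, hjk⟩
    rw [this, card_image_of_injOn, card_range]
    intro j hj j' hj' hjj
    simp only [coe_range, Set.mem_Iio] at hj hj'
    simp only at hjj
    have h1 : (i * r + j) ≡ (i * r + j') [MOD b] := hjj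
    have h2 : j ≡ j' [MOD b] := Nat.ModEq.add_left_cancel' _ h1
    have := Nat.ModEq.eq_of_lt_of_lt h2 (by omega) (by omega)
    exact this
  · intro k hk
    rcases Nat.eq_zero_or_pos s with hs | hs
    · subst hs; exact Nat.zero_le _
    have hrpos : 0 < r := by
      rcases Nat.eq_zero_or_pos r with h0 | h0
      · subst h0
        have : 0 < b * s := Nat.mul_pos hb hs
        omega
      · exact h0
    calc s = (range s).card := (card_range s).symm
      _ = ((range s).image (fun m => (k + b * m) / r)).card := by
          rw [card_image_of_injOn]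
          intro m hm m' hm' hmm
          simp only at hmm
          by_contra hne
          rcases Nat.lt_or_gt_of_ne hne with hlt | hlt
          · have h1 : k + b * m + r ≤ k + b * m' := by nlinarith
            have h2 : (k + b * m) / r + 1 ≤ (k + b * m') / r := by
              rw [← Nat.add_div_right _ hrpos]
              exact Nat.div_le_div_right h1
            omega
          · have h1 : k + b * m' + r ≤ k + b * m := by nlinarith
            have h2 : (k + b * m') / r + 1 ≤ (k + b * m) / r := by
              rw [← Nat.add_div_right _ hrpos]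
              exact Nat.div_le_div_right h1
            omega
      _ ≤ _ := by
          apply card_le_card
          intro i hi
          simp only [mem_image, mem_range] at hi
          obtain ⟨m, hm, rfl⟩ := hi
          simp only [mem_filter, mem_range, hR]
          have hlt : k + b * m < a * r := by nlinarith
          refine ⟨(Nat.div_lt_iff_lt_mul hrpos).2 hlt, (k + b * m) % r, Nat.mod_lt _ hrpos, ?_⟩
          rw [Nat.div_add_mod', Nat.add_mul_mod_self_left, Nat.mod_eq_of_lt hk]

theorem card_prod_filter (a b : ℕ) (R : ℕ → ℕ → Prop) :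
    ((range a ×ˢ range b).filter (fun z => R z.1 z.2)).card =
      ∑ i ∈ range a, ((range b).filter (fun k => R i k)).card := by
  simp only [card_filter, sum_product]

theorem card_prod_filter' (a b : ℕ) (R : ℕ → ℕ → Prop) :
    ((range a ×ˢ range b).filter (fun z => R z.1 z.2)).card =
      ∑ k ∈ range b, ((range a).filter (fun i => R i k)).card := by
  simp only [card_filter, sum_product_right]

/-- A bipartite relation between `t` and `x ≥ t` vertices: at least `t` neighbours on the left, at
least `d` on the right, and at most `max (t²) (x d)` pairs. -/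
theorem cx (t x d : ℕ) (ht : 0 < t) (htx : t ≤ x) (hd : d ≤ t) :
    ∃ R : ℕ → ℕ → Prop,
      (∀ c, c < t → t ≤ ((range x).filter (fun k => R c k)).card) ∧
      (∀ k, k < x → d ≤ ((range t).filter (fun c => R c k)).card) ∧
      ((range t ×ˢ range x).filter (fun z => R z.1 z.2)).card ≤ max (t * t) (x * d) := by
  rcases le_total (t * t) (x * d) with h | h
  · obtain ⟨R, h1, h2⟩ := bip x t d t ht hd h
    refine ⟨fun c k => R k c, fun c hc => h2 c hc, fun k _ => (h1 k).ge, ?_⟩
    have := card_prod_filter' t x (fun c k => R k c)
    rw [sum_congr rfl (fun k _ => h1 k)] at this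
    rw [this]
    simp
  · obtain ⟨R, h1, h2⟩ := bip t x t d (by omega) htx h
    refine ⟨R, fun c _ => (h1 c).ge, fun k hk => h2 k hk, ?_⟩
    rw [card_prod_filter, sum_congr rfl (fun c _ => h1 c)]
    simp

end Pool.Agent.TriMin
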