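import Mathlib

set_option autoImplicit false

namespace Pool.Agent.TriMin

open Finset Classical

/-- The tripartite graph on three copies of `Fin n` given by three relations. -/
def tri (n : ℕ) (R12 R13 R23 : ℕ → ℕ → Prop) : SimpleGraph (Fin 3 × Fin n) where
  Adj a b :=
    (a.1 = 0 ∧ b.1 = 1 ∧ R12 a.2 b.2) ∨ (a.1 = 1 ∧ b.1 = 0 ∧ R12 b.2 a.2) ∨
    (a.1 = 0 ∧ b.1 = 2 ∧ R13 a.2 b.2) ∨ (a.1 = 2 ∧ b.1 = 0 ∧ R13 b.2 a.2) ∨
    (a.1 = 1 ∧ b.1 = 2 ∧ R23 a.2 b.2) ∨ (a.1 = 2 ∧ b.1 = 1 ∧ R23 b.2 a.2)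
  symm := ⟨fun a b h => by tauto⟩
  loopless := ⟨fun a h => by
    rcases h with h | h | h | h | h | h <;>
    · have := h.1.symm.trans h.2.1
      exact absurd this (by decide)⟩

theorem card_fin_filter (n : ℕ) (S : ℕ → Prop) :
    ((univ : Finset (Fin n)).filter (fun a : Fin n => S a)).card = ((range n).filter S).card := by
  simp only [card_filter]
  exact Fin.sum_univ_eq_sum_range (fun i => if S i then 1 else 0) n

theorem deg_lb (n : ℕ) (G : SimpleGraph (Fin 3 × Fin n)) (v : Fin 3 × Fin n) (j k : Fin 3)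
    (hjk : j ≠ k) (S T : ℕ → Prop) (hS : ∀ a : Fin n, S a → G.Adj v (j, a))
    (hT : ∀ a : Fin n, T a → G.Adj v (k, a)) :
    ((range n).filter S).card + ((range n).filter T).card ≤ (G.neighborSet v).ncard := by
  rw [← card_fin_filter, ← card_fin_filter]
  have inj : ∀ i : Fin 3, Function.Injective (fun a : Fin n => (i, a)) := fun i a b h => by
    simpa using h
  have h1 : ((univ : Finset (Fin n)).filter (fun a : Fin n => S a)).card =
      (((univ : Finset (Fin n)).filter (fun a : Fin n => S a)).map ⟨_, inj j⟩).card := by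
    rw [card_map]
  have h2 : ((univ : Finset (Fin n)).filter (fun a : Fin n => T a)).card =
      (((univ : Finset (Fin n)).filter (fun a : Fin n => T a)).map ⟨_, inj k⟩).card := by
    rw [card_map]
  rw [h1, h2, ← card_union_of_disjoint]
  · rw [← Set.ncard_coe_finset]
    apply Set.ncard_le_ncard _ (Set.toFinite _)
    intro w hw
    simp only [coe_union, coe_map, Function.Embedding.coeFn_mk, coe_filter, mem_univ, true_and,
      Set.mem_union, Set.mem_image, Set.mem_ofPred_eq] at hw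
    rcases hw with ⟨a, ha, rfl⟩ | ⟨a, ha, rfl⟩
    · exact hS a ha
    · exact hT a ha
  · rw [disjoint_left]
    intro w hw hw'
    simp only [mem_map, mem_filter, mem_univ, true_and, Function.Embedding.coeFn_mk] at hw hw'
    obtain ⟨a, _, rfl⟩ := hw
    obtain ⟨b, _, hb⟩ := hw'
    exact hjk (congrArg Prod.fst hb).symm

theorem clique_ub (n : ℕ) (R12 R13 R23 : ℕ → ℕ → Prop) :
    ((tri n R12 R13 R23).cliqueSet 3).ncard ≤
      ((range n ×ˢ range n ×ˢ range n).filter
        (fun z => R12 z.1 z.2.1 ∧ R13 z.1 z.2.2 ∧ R23 z.2.1 z.2.2)).card := by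
  set T : Finset (Fin n × Fin n × Fin n) := univ.filter
    (fun z => R12 z.1 z.2.1 ∧ R13 z.1 z.2.2 ∧ R23 z.2.1 z.2.2) with hT
  have hle : ((tri n R12 R13 R23).cliqueSet 3).ncard ≤ T.card := by
    have hsub : (tri n R12 R13 R23).cliqueSet 3 ⊆
        ((T.image (fun z => ({(0, z.1), (1, z.2.1), (2, z.2.2)} : Finset (Fin 3 × Fin n))) :
          Finset (Finset (Fin 3 × Fin n))) : Set (Finset (Fin 3 × Fin n))) := by
      intro s hs
      rw [SimpleGraph.mem_cliqueSet_iff, SimpleGraph.is3Clique_iff] at hs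
      obtain ⟨a, b, c, hab, hac, hbc, rfl⟩ := hs
      obtain ⟨i, u⟩ := a
      obtain ⟨j, v⟩ := b
      obtain ⟨k, w⟩ := c
      simp only [tri] at hab hac hbc
      simp only [coe_image, Set.mem_image, mem_coe, hT, mem_filter, mem_univ, true_and]
      fin_cases i <;> fin_cases j <;> fin_cases k <;> simp at hab hac hbc
      · exact ⟨(u, v, w), ⟨hab, hac, hbc⟩, by ext; simp⟩
      · exact ⟨(u, w, v), ⟨hac, hab, hbc⟩, by ext; simp; tauto⟩
      · exact ⟨(v, u, w), ⟨hab, hbc, hac⟩, by ext; simp; tauto⟩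
      · exact ⟨(w, u, v), ⟨hac, hbc, hab⟩, by ext; simp; tauto⟩
      · exact ⟨(v, w, u), ⟨hbc, hab, hac⟩, by ext; simp; tauto⟩
      · exact ⟨(w, v, u), ⟨hbc, hac, hab⟩, by ext; simp; tauto⟩
    calc _ ≤ _ := Set.ncard_le_ncard hsub (Set.toFinite _)
      _ = _ := Set.ncard_coe_finset _
      _ ≤ T.card := card_image_le
  refine hle.trans ?_
  apply card_le_card_of_injOn (fun z => (z.1.val, z.2.1.val, z.2.2.val))
  · intro z hz
    simp only [hT, coe_filter, mem_univ, true_and, Set.mem_ofPred_eq] at hz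
    simp only [coe_filter, mem_product, mem_range, Set.mem_ofPred_eq]
    exact ⟨⟨z.1.isLt, z.2.1.isLt, z.2.2.isLt⟩, hz⟩
  · intro z _ z' _ h
    simp only [Prod.mk.injEq] at h
    ext
    · exact h.1
    · exact h.2.1
    · exact h.2.2

end Pool.Agent.TriMin
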