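import Mathlib
import Pool.Agent.TriMin.Bip
import Pool.Agent.TriMin.Graph

set_option autoImplicit false

namespace Pool.Agent.TriMin

open Finset Classical

theorem lb_Ico (n a b m : ℕ) (S : ℕ → Prop) (hb : b ≤ n) (hm : m ≤ b - a)
    (h : ∀ v, a ≤ v → v < b → S v) : m ≤ ((range n).filter (fun v => S v)).card := by
  refine hm.trans ?_
  rw [← Nat.card_Ico]
  apply card_le_card
  intro v hv
  rw [mem_Ico] at hv
  rw [mem_filter, mem_range]
  exact ⟨by omega, h v hv.1 hv.2⟩

theorem lb_shift (n x y d : ℕ) (S R : ℕ → Prop) (hxy : x + y ≤ n) (h : ∀ c, c < y → R c → S (x + c))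
    (hd : d ≤ ((range y).filter (fun c => R c)).card) :
    d ≤ ((range n).filter (fun v => S v)).card := by
  refine hd.trans ?_
  rw [← card_image_of_injective _ (add_right_injective x)]
  apply card_le_card
  intro v hv
  simp only [mem_image, mem_filter, mem_range] at hv
  obtain ⟨c, ⟨hc, hR⟩, rfl⟩ := hv
  rw [mem_filter, mem_range]
  exact ⟨by omega, h c hc hR⟩

theorem lb3 (n q t d : ℕ) (S R : ℕ → Prop) (hq : q + t ≤ n) (hA : ∀ v, v < q → S v)
    (hB : ∀ v, q + t ≤ v → v < n → S v) (hC : ∀ c, c < t → R c → S (q + c))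
    (hd : d ≤ ((range t).filter (fun c => R c)).card) :
    n - t + d ≤ ((range n).filter (fun v => S v)).card := by
  have h1 : (range q ∪ Ico (q + t) n ∪ ((range t).filter (fun c => R c)).image (fun c => q + c)) ⊆
      (range n).filter (fun v => S v) := by
    intro v hv
    simp only [mem_union, mem_range, mem_Ico, mem_image, mem_filter] at hv
    rw [mem_filter, mem_range]
    rcases hv with (hv | hv) | ⟨c, ⟨hc, hR⟩, rfl⟩
    · exact ⟨by omega, hA v hv⟩
    · exact ⟨hv.2, hB v hv.1 hv.2⟩
    · exact ⟨by omega, hC c hc hR⟩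
  refine le_trans ?_ (card_le_card h1)
  rw [card_union_of_disjoint, card_union_of_disjoint,
    card_image_of_injective _ (add_right_injective q), card_range, Nat.card_Ico]
  · omega
  · rw [disjoint_left]
    intro v hv hv'
    rw [mem_range] at hv
    rw [mem_Ico] at hv'
    omega
  · rw [disjoint_left]
    intro v hv hv'
    simp only [mem_union, mem_range, mem_Ico] at hv
    simp only [mem_image, mem_filter, mem_range] at hv'
    obtain ⟨c, ⟨hc, _⟩, rfl⟩ := hv'
    omega

theorem family (t n x y p q d1 d2 : ℕ) (ht : 0 < t) (hxy : x + y = n)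
    (hpx : p + t ≤ x) (hqy : q + t ≤ y) (hd1 : d1 ≤ t) (hd2 : d2 ≤ t)
    (h1 : 2 * t ≤ p + d1) (h2 : 2 * t ≤ q + d2) :
    ∃ G : SimpleGraph (Fin 3 × Fin n),
      (∀ (i : Fin 3) (a b : Fin n), ¬ G.Adj (i, a) (i, b)) ∧
      (∀ v, n + t ≤ (G.neighborSet v).ncard) ∧
      (G.cliqueSet 3).ncard ≤ p * max (t * t) (x * d1) + q * max (t * t) (y * d2) := by
  obtain ⟨RX, hX1, hX2, hX3⟩ := cx t x d1 ht (by omega) hd1
  obtain ⟨RY, hY1, hY2, hY3⟩ := cx t y d2 ht (by omega) hd2
  obtain ⟨R12, hR12⟩ : ∃ R : ℕ → ℕ → Prop, ∀ u v, R u v ↔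
      ((u < q ∧ p ≤ v ∧ v < p + t) ∨ (q ≤ u ∧ u < q + t) ∨ (q + t ≤ u ∧ p ≤ v)) :=
    ⟨_, fun _ _ => Iff.rfl⟩
  obtain ⟨R13, hR13⟩ : ∃ R : ℕ → ℕ → Prop, ∀ u w, R u w ↔
      (u < q ∨ (q ≤ u ∧ u < q + t ∧ w < x ∧ RX (u - q) w) ∨ (q + t ≤ u ∧ w < x)) :=
    ⟨_, fun _ _ => Iff.rfl⟩
  obtain ⟨R23, hR23⟩ : ∃ R : ℕ → ℕ → Prop, ∀ v w, R v w ↔
      (v < p ∨ (p ≤ v ∧ v < p + t ∧ x ≤ w ∧ RY (v - p) (w - x)) ∨ (p + t ≤ v ∧ x ≤ w)) :=
    ⟨_, fun _ _ => Iff.rfl⟩
  refine ⟨tri n R12 R13 R23, ?_, ?_, ?_⟩
  · intro i a b
    simp only [tri]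
    fin_cases i <;> simp
  · rintro ⟨i, u⟩
    obtain ⟨u, hu⟩ := u
    fin_cases i
    · -- class 1
      refine le_trans ?_ (deg_lb n _ _ 1 2 (by decide) (fun v => R12 u v) (fun w => R13 u w)
        (fun a ha => by simp [tri, ha]) (fun a ha => by simp [tri, ha]))
      rcases lt_or_ge u q with hq | hq
      · have e1 : t ≤ ((range n).filter (fun v => R12 u v)).card :=
          lb_Ico n p (p + t) t _ (by omega) (by omega) (fun v h h' => by
            rw [hR12]; exact Or.inl ⟨hq, h, h'⟩)
        have e2 : n ≤ ((range n).filter (fun v => R13 u v)).card :=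
          lb_Ico n 0 n n _ le_rfl (by omega) (fun v h h' => by
            rw [hR13]; exact Or.inl hq)
        omega
      · rcases lt_or_ge u (q + t) with hq' | hq'
        · have e1 : n ≤ ((range n).filter (fun v => R12 u v)).card :=
            lb_Ico n 0 n n _ le_rfl (by omega) (fun v h h' => by
              rw [hR12]; exact Or.inr (Or.inl ⟨hq, hq'⟩))
          have e2 : t ≤ ((range n).filter (fun v => R13 u v)).card :=
            lb_shift n 0 x t _ (fun w => RX (u - q) w) (by omega) (fun c hc hR => by
              rw [hR13]; exact Or.inr (Or.inl ⟨hq, hq', by omega, by simpa using hR⟩))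
              (hX1 (u - q) (by omega))
          omega
        · have e1 : n - p ≤ ((range n).filter (fun v => R12 u v)).card :=
            lb_Ico n p n _ _ le_rfl le_rfl (fun v h h' => by
              rw [hR12]; exact Or.inr (Or.inr ⟨hq', h⟩))
          have e2 : x ≤ ((range n).filter (fun v => R13 u v)).card :=
            lb_Ico n 0 x _ _ (by omega) (by omega) (fun v h h' => by
              rw [hR13]; exact Or.inr (Or.inr ⟨hq', h'⟩))
          omega
    · -- class 2
      refine le_trans ?_ (deg_lb n _ _ 0 2 (by decide) (fun v => R12 v u) (fun w => R23 u w)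
        (fun a ha => by simp [tri, ha]) (fun a ha => by simp [tri, ha]))
      rcases lt_or_ge u p with hq | hq
      · have e1 : t ≤ ((range n).filter (fun v => R12 v u)).card :=
          lb_Ico n q (q + t) t _ (by omega) (by omega) (fun v h h' => by
            rw [hR12]; exact Or.inr (Or.inl ⟨h, h'⟩))
        have e2 : n ≤ ((range n).filter (fun v => R23 u v)).card :=
          lb_Ico n 0 n n _ le_rfl (by omega) (fun v h h' => by
            rw [hR23]; exact Or.inl hq)
        omega
      · rcases lt_or_ge u (p + t) with hq' | hq'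
        · have e1 : n ≤ ((range n).filter (fun v => R12 v u)).card :=
            lb_Ico n 0 n n _ le_rfl (by omega) (fun v h h' => by
              rw [hR12]; omega)
          have e2 : t ≤ ((range n).filter (fun v => R23 u v)).card :=
            lb_shift n x y t _ (fun w => RY (u - p) w) (by omega) (fun c hc hR => by
              rw [hR23]; exact Or.inr (Or.inl ⟨hq, hq', by omega, by
                simpa using hR⟩))
              (hY1 (u - p) (by omega))
          omega
        · have e1 : n - q ≤ ((range n).filter (fun v => R12 v u)).card :=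
            lb_Ico n q n _ _ le_rfl le_rfl (fun v h h' => by
              rw [hR12]; omega)
          have e2 : y ≤ ((range n).filter (fun v => R23 u v)).card :=
            lb_Ico n x n _ _ le_rfl (by omega) (fun v h h' => by
              rw [hR23]; exact Or.inr (Or.inr ⟨hq', h⟩))
          omega
    · -- class 3
      refine le_trans ?_ (deg_lb n _ _ 0 1 (by decide) (fun v => R13 v u) (fun w => R23 w u)
        (fun a ha => by simp [tri, ha]) (fun a ha => by simp [tri, ha]))
      rcases lt_or_ge u x with hq | hq
      · have e1 : n - t + d1 ≤ ((range n).filter (fun v => R13 v u)).card :=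
          lb3 n q t d1 _ (fun c => RX c u) (by omega)
            (fun v hv => by rw [hR13]; exact Or.inl hv)
            (fun v hv _ => by rw [hR13]; exact Or.inr (Or.inr ⟨hv, hq⟩))
            (fun c hc hR => by
              rw [hR13]
              exact Or.inr (Or.inl ⟨by omega, by omega, hq, by simpa using hR⟩))
            (hX2 u hq)
        have e2 : p ≤ ((range n).filter (fun v => R23 v u)).card :=
          lb_Ico n 0 p _ _ (by omega) (by omega) (fun v h h' => by
            rw [hR23]; exact Or.inl h')
        omega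
      · have e1 : q ≤ ((range n).filter (fun v => R13 v u)).card :=
          lb_Ico n 0 q _ _ (by omega) (by omega) (fun v h h' => by
            rw [hR13]; exact Or.inl h')
        have e2 : n - t + d2 ≤ ((range n).filter (fun v => R23 v u)).card :=
          lb3 n p t d2 _ (fun c => RY c (u - x)) (by omega)
            (fun v hv => by rw [hR23]; exact Or.inl hv)
            (fun v hv _ => by rw [hR23]; exact Or.inr (Or.inr ⟨hv, hq⟩))
            (fun c hc hR => by
              rw [hR23]
              exact Or.inr (Or.inl ⟨by omega, by omega, hq, by simpa using hR⟩))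
            (hY2 (u - x) (by omega))
        omega
  · refine (clique_ub n R12 R13 R23).trans ?_
    have hsub : (range n ×ˢ range n ×ˢ range n).filter
        (fun z => R12 z.1 z.2.1 ∧ R13 z.1 z.2.2 ∧ R23 z.2.1 z.2.2) ⊆
        ((range p ×ˢ (range t ×ˢ range x).filter (fun z => RX z.1 z.2)).image
          (fun z => (q + z.2.1, z.1, z.2.2))) ∪
        ((range q ×ˢ (range t ×ˢ range y).filter (fun z => RY z.1 z.2)).image
          (fun z => (z.1, p + z.2.1, x + z.2.2))) := by
      rintro ⟨u, v, w⟩ hz
      simp only [mem_filter, mem_product, mem_range, hR12, hR13, hR23] at hz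
      obtain ⟨⟨hu, hv, hw⟩, a12, a13, a23⟩ := hz
      simp only [mem_union, mem_image, mem_product, mem_range, mem_filter, Prod.mk.injEq,
        Prod.exists]
      rcases lt_or_ge u q with hq | hq
      · right
        have hv1 : p ≤ v ∧ v < p + t := by omega
        have hv2 : x ≤ w ∧ RY (v - p) (w - x) := by
          rcases a23 with h | h | h
          · omega
          · exact ⟨h.2.2.1, h.2.2.2⟩
          · omega
        exact ⟨u, v - p, w - x, ⟨hq, ⟨by omega, by omega⟩, hv2.2⟩, rfl, by omega, by omega⟩
      · left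
        have hu1 : q ≤ u ∧ u < q + t ∧ w < x ∧ RX (u - q) w := by
          rcases a13 with h | h | h
          · omega
          · exact h
          · exfalso
            omega
        refine ⟨v, u - q, w, ⟨?_, ⟨by omega, hu1.2.2.1⟩, hu1.2.2.2⟩, by omega, rfl, rfl⟩
        rcases a23 with h | h | h
        · exact h
        · omega
        · omega
    refine (card_le_card hsub).trans ((card_union_le _ _).trans ?_)
    refine Nat.add_le_add ?_ ?_
    · refine card_image_le.trans ?_
      rw [card_product, card_range]
      exact Nat.mul_le_mul_left _ hX3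
    · refine card_image_le.trans ?_
      rw [card_product, card_range]
      exact Nat.mul_le_mul_left _ hY3

end Pool.Agent.TriMin
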